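import Pool.Agent.H77.TE.StrongDesc

/-!
# Uniform exponents for modules that are not free in codimension two, in all dimensions
-/

namespace Pool.Agent.Results.MP_dca5ce_ag.CodimensionTwo

open TensorProduct Pool.Agent.H77.TE

universe u

/-- The `R`-module `M` is not free at some prime ideal of `R` of height at most two. -/
def NotFreeCodimTwo (R : Type u) [CommRing R] (M : Type u) [AddCommGroup M] [Module R M] : Prop :=
  ∃ (P : Ideal R) (_ : P.IsPrime), P.height ≤ 2 ∧
    ¬ Module.Free (Localization.AtPrime P) (Localization.AtPrime P ⊗[R] M)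

/-- The `e`-th tensor power of every finitely generated `R`-module that is not free at some prime of
height at most two has nonzero torsion. -/
def TestsCodimTwo (R : Type u) [CommRing R] (e : ℕ) : Prop :=
  ∀ (M : Type u) [AddCommGroup M] [Module R M], Module.Finite R M → NotFreeCodimTwo R M →
    Submodule.torsion R (TensorPower R e M) ≠ ⊥

theorem main (A S R' R : Type u) [CommRing A] [CommRing S] [CommRing R'] [CommRing R] [IsDomain A]
    [IsDomain R] [IsNoetherianRing A] [IsIntegrallyClosed A] [IsNoetherianRing R]
    [Algebra A S] [Algebra S R'] [Algebra R R'] [Module.FaithfullyFlat R R']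
    (W : Submonoid S) [IsLocalization W R']
    (hreg : ∀ (q : Ideal A) [q.IsPrime], q.height ≤ 2 → IsRegularLocalRing (Localization.AtPrime q))
    (hmin : ∀ I ∈ minimalPrimes S, Ideal.comap (algebraMap A S) I = ⊥)
    (g : ℕ) (s : Fin g → S) (hs : Submodule.span A (Set.range s) = ⊤) (e : ℕ) (he : g + 1 ≤ e) :
    TestsCodimTwo R e := by
  classical
  intro M _ _ hfin ⟨P, hP, hheight, hM⟩
  have hfinS : Module.Finite A S := ⟨⟨Finset.univ.image s, by
    rw [Finset.coe_image, Finset.coe_univ, Set.image_univ, hs]⟩⟩
  have hSN : IsNoetherianRing S := IsNoetherianRing.of_finite A S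
  have hRN : IsNoetherianRing R' := IsLocalization.isNoetherianRing W R' hSN
  obtain ⟨P', hP', hover, hle⟩ := exists_prime_over (R' := R') P
  have hloc : IsLocalization.AtPrime (Localization.AtPrime P') (P'.comap (algebraMap S R')) :=
    IsLocalization.isLocalization_isLocalization_atPrime_isLocalization W (Localization.AtPrime P') P'
  have hqheight : ((P'.comap (algebraMap S R')).comap (algebraMap A S)).height ≤ 2 := by
    have h1 := height_contraction hmin (P'.comap (algebraMap S R'))
    have h2 := IsLocalization.height_under W P'
    exact h1.trans (h2.le.trans (hle.trans hheight))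
  have hreg' := hreg ((P'.comap (algebraMap S R')).comap (algebraMap A S)) hqheight
  obtain ⟨x, y, hxy⟩ := two_generators (Localization.AtPrime
    ((P'.comap (algebraMap S R')).comap (algebraMap A S))) (by
      rw [IsLocalization.AtPrime.ringKrullDim_eq_height
        ((P'.comap (algebraMap S R')).comap (algebraMap A S))]
      exact WithBot.coe_le_coe.2 hqheight)
  have hpir := pir_quotient x y hxy
  have hgens := loc_ideal_gens (A := A) (L := Localization.AtPrime P') (P'.comap (algebraMap S R')) s hs
    x hpir
  have hx : x ∈ IsLocalRing.maximalIdeal (Localization.AtPrime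
      ((P'.comap (algebraMap S R')).comap (algebraMap A S))) := by
    rw [hxy]; exact Ideal.subset_span (by simp)
  have hphi := phi_mem (A := A) (L := Localization.AtPrime P') (P'.comap (algebraMap S R')) hx
  have hLN : IsNoetherianRing (Localization.AtPrime P') :=
    IsLocalization.isNoetherianRing P'.primeCompl _ hRN
  -- the flat local map of the localizations
  let _ := Localization.AtPrime.algebraOfLiesOver P P'
  have hlh : IsLocalHom (algebraMap (Localization.AtPrime P) (Localization.AtPrime P')) := by
    rw [RingHom.algebraMap_toAlgebra]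
    exact Localization.isLocalHom_localRingHom P P' (algebraMap R R') Ideal.LiesOver.over
  have hflR : Module.Flat R (Localization.AtPrime P') := by
    have : Module.Flat R' (Localization.AtPrime P') := IsLocalization.flat _ P'.primeCompl
    exact Module.Flat.trans R R' _
  have hfl : Module.Flat (Localization.AtPrime P) (Localization.AtPrime P') :=
    (Module.flat_iff_of_isLocalization (Localization.AtPrime P) P.primeCompl
      (Localization.AtPrime P')).2 hflR
  have hRD : IsDomain (Localization.AtPrime P) :=
    IsLocalization.isDomain_localization P.primeCompl_le_nonZeroDivisors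
  have hflat : Module.Flat R (Localization.AtPrime P) := IsLocalization.flat _ P.primeCompl
  obtain ⟨e', rfl⟩ : ∃ e', e = e' + 1 := ⟨e - 1, by omega⟩
  apply torsion_of_localization (L := Localization.AtPrime P)
  exact strong_descent (L := Localization.AtPrime P') _ hphi e' (pad (by omega) hgens) _ hM

/-- (i) the general theorem; (ii) domains essentially of finite type over a field. -/
theorem result :
    (∀ (A S R' R : Type u) [CommRing A] [CommRing S] [CommRing R'] [CommRing R] [IsDomain A]
      [IsDomain R] [IsNoetherianRing A] [IsIntegrallyClosed A] [IsNoetherianRing R]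
      [Algebra A S] [Algebra S R'] [Algebra R R'] [Module.FaithfullyFlat R R']
      (W : Submonoid S) [IsLocalization W R'],
      (∀ (q : Ideal A) [q.IsPrime], q.height ≤ 2 → IsRegularLocalRing (Localization.AtPrime q)) →
      (∀ I ∈ minimalPrimes S, Ideal.comap (algebraMap A S) I = ⊥) →
      ∀ (g : ℕ) (s : Fin g → S), Submodule.span A (Set.range s) = ⊤ →
        ∀ e : ℕ, g + 1 ≤ e → TestsCodimTwo R e) ∧
    (∀ (k S : Type u) [Field k] [CommRing S] [IsDomain S] [Algebra k S] [Algebra.FiniteType k S],
      ∃ e₀ : ℕ, ∀ (R : Type u) [CommRing R] [IsDomain R] [Algebra S R] (W : Submonoid S)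
        [IsLocalization W R], ∀ e : ℕ, e₀ ≤ e → TestsCodimTwo R e) := by
  refine ⟨?_, ?_⟩
  · intro A S R' R _ _ _ _ _ _ _ _ _ _ _ _ _ W _ hreg hmin g s hs e he
    exact main A S R' R W hreg hmin g s hs e he
  · intro k S _ _ _ _ _
    obtain ⟨d, f, hinj, hfin⟩ := exists_finite_inj_algHom_of_fg k S
    let _ : Algebra (MvPolynomial (Fin d) k) S := f.toRingHom.toAlgebra
    have hfin' : Module.Finite (MvPolynomial (Fin d) k) S := hfin
    obtain ⟨g, s, hs⟩ := Module.Finite.exists_fin (R := MvPolynomial (Fin d) k) (M := S)
    refine ⟨g + 1, ?_⟩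
    intro R _ _ _ W _ e he
    have hSN : IsNoetherianRing S := IsNoetherianRing.of_finite (MvPolynomial (Fin d) k) S
    have hRN : IsNoetherianRing R := IsLocalization.isNoetherianRing W R hSN
    refine main (MvPolynomial (Fin d) k) S R R W (fun q _ _ => inferInstance) ?_ g s hs e he
    intro I hI
    rw [IsDomain.minimalPrimes_eq_singleton_bot, Set.mem_singleton_iff] at hI
    subst hI
    rw [← RingHom.ker_eq_comap_bot]
    exact (RingHom.injective_iff_ker_eq_bot _).1 hinj

end Pool.Agent.Results.MP_dca5ce_ag.CodimensionTwo
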