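import Pool.Agent.H16.TensorMain
import Pool.Agent.H16.BoundedGen
import Pool.Agent.H16.TestExponentDef

/-!
# Test exponents exist for all Noetherian local domains of dimension at most two
-/

namespace Pool.Agent.Results.MP_dca5ce_ag.DimAtMostTwo

open Pool.Agent.H16

universe u

theorem pad {A : Type*} [CommRing A] {N N' : ℕ} (h : N ≤ N')
    (hN : ∀ J : Ideal A, ∃ b : Fin N → A, Ideal.span (Set.range b) = J) :
    ∀ J : Ideal A, ∃ b : Fin N' → A, Ideal.span (Set.range b) = J := by
  intro J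
  obtain ⟨b, hb⟩ := hN J
  refine ⟨fun i => if h : (i : ℕ) < N then b ⟨i, h⟩ else 0, ?_⟩
  rw [← hb]
  apply le_antisymm
  · rw [Ideal.span_le]
    rintro _ ⟨i, rfl⟩
    show (if h : (i : ℕ) < N then b ⟨i, h⟩ else 0) ∈ Ideal.span (Set.range b)
    split_ifs with hi
    · exact Ideal.subset_span ⟨_, rfl⟩
    · exact Ideal.zero_mem _
  · rw [Ideal.span_le]
    rintro _ ⟨i, rfl⟩
    refine Ideal.subset_span ⟨⟨i, by omega⟩, ?_⟩
    show (if h : (i : ℕ) < N then b ⟨i, h⟩ else 0) = b i
    rw [dif_pos i.2]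

/-- Every Noetherian local domain of Krull dimension at most two has a test exponent; in fact all large
integers are test exponents. -/
theorem result (R : Type u) [CommRing R] [IsDomain R] [IsNoetherianRing R] [IsLocalRing R]
    (hdim : ringKrullDim R ≤ 2) : ∃ e₀ : ℕ, ∀ e ≥ e₀, IsTestExponent R e := by
  by_cases hF : IsField R
  · refine ⟨0, fun e _ M _ _ _ _ hfree => absurd ?_ hfree⟩
    let _ := hF.toField
    exact Module.Free.of_divisionRing R M
  · obtain ⟨x, hx, hx0⟩ : ∃ x ∈ IsLocalRing.maximalIdeal R, x ≠ 0 := by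
      by_contra hcon
      push Not at hcon
      apply hF
      rw [IsLocalRing.isField_iff_maximalIdeal_eq, eq_bot_iff]
      intro z hz
      rw [Submodule.mem_bot]
      exact hcon z hz
    have hxtop : Ideal.span {x} ≠ ⊤ := by
      intro h
      have h1 : (1 : R) ∈ Ideal.span {x} := by rw [h]; trivial
      have h2 : (1 : R) ∈ IsLocalRing.maximalIdeal R :=
        (Ideal.span_le.2 (Set.singleton_subset_iff.2 hx)) h1
      exact (IsLocalRing.mem_maximalIdeal _).1 h2 isUnit_one
    have : Nontrivial (R ⧸ Ideal.span {x}) := Ideal.Quotient.nontrivial_iff.2 hxtop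
    have : IsLocalRing (R ⧸ Ideal.span {x}) :=
      IsLocalRing.of_surjective' (Ideal.Quotient.mk _) Ideal.Quotient.mk_surjective
    have hB : Ring.KrullDimLE 1 (R ⧸ Ideal.span {x}) := by
      rw [Ring.krullDimLE_iff]
      have h1 := ringKrullDim_quotient_succ_le_of_nonZeroDivisor (mem_nonZeroDivisors_of_ne_zero hx0)
      have h2 := h1.trans hdim
      have h3 : ringKrullDim (R ⧸ Ideal.span {x}) + 1 ≤ (1 : WithBot ℕ∞) + 1 := by
        rw [one_add_one_eq_two]
        exact h2
      exact ENat.WithBot.add_le_add_one_right_iff.1 h3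
    obtain ⟨N, hN⟩ := BG.bdd_ideals (R ⧸ Ideal.span {x})
    refine ⟨N + 1, fun e he M _ _ hfin _ hfree => ?_⟩
    obtain ⟨e', rfl⟩ : ∃ e', e = e' + 1 := ⟨e - 1, by omega⟩
    exact TP.main x hx e' (pad (by omega) hN) M hfree

end Pool.Agent.Results.MP_dca5ce_ag.DimAtMostTwo
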