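import Pool.Agent.H16.CuspModule
import Pool.Agent.H16.TestExponentDef

/-!
# No fixed `e` is a test exponent for all one-dimensional Noetherian local domains

For every field `k` and every `e ≥ 1` the subring `R = k + X ^ (e + 1) k⟦X⟧` of `k⟦X⟧`
(`Cusp.cusp k (e + 1)`) is a one-dimensional Noetherian local domain, and the `R`-submodule `M` of
`k⟦X⟧ ^ e` generated by the standard basis vectors and the vector `(X, X ^ 2, ..., X ^ e)` is
finitely generated, torsionfree and not free, while its `e`-th tensor power is torsionfree.
For `e = 2` this disproves statement (a) of Q2.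
-/

namespace Pool.Agent.Results.MP_dca5ce_ag.DimOneNoExponent

open Pool.Agent.H16

universe u

/-- The one-dimensional Noetherian local domain `k + X ^ (e + 1) k⟦X⟧` does not have `e` as a test
exponent. -/
theorem result (k : Type u) [Field k] (e : ℕ) (he : 1 ≤ e) :
    IsDomain (Cusp.cusp k (e + 1)) ∧ IsNoetherianRing (Cusp.cusp k (e + 1)) ∧
      IsLocalRing (Cusp.cusp k (e + 1)) ∧ ringKrullDim (Cusp.cusp k (e + 1)) = 1 ∧
      ¬ IsTestExponent (Cusp.cusp k (e + 1)) e := by
  refine ⟨inferInstance, Cusp.isNoetherianRing (by omega), Cusp.isLocalRing (by omega),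
    Cusp.ringKrullDim_cusp (by omega), ?_⟩
  intro h
  exact h (Cusp.mod k e) Cusp.finite_mod Cusp.torsion_mod (Cusp.not_free_mod he)
    (Cusp.torsion_tensorPower he)

end Pool.Agent.Results.MP_dca5ce_ag.DimOneNoExponent
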