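import Pool.Agent.H19.Mult.Inf
import Pool.Agent.H19.Mult.Desc
import Pool.Agent.H19.Mult.Ext

/-!
# The exponent `d + μ - 1` for Cohen-Macaulay local domains of dimension `d ≤ 2`

`μ` is the Hilbert-Samuel multiplicity, that is, `d ! * length (R / 𝔪 ^ n) / n ^ d → μ`, and
`R` is Cohen-Macaulay of dimension `d`: there is a regular sequence of length `d = dim R`.
-/

namespace Pool.Agent.Results.MP_dca5ce_ag.MultiplicityBound

open IsLocalRing Filter Topology
open scoped Pointwise
open Pool.Agent.H16 Pool.Agent.H19.Mult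

universe u

theorem weaklyRegular_one {A : Type u} [CommRing A] [Nontrivial A] {a : A} {l : List A}
    (h : RingTheory.Sequence.IsWeaklyRegular A (a :: l)) : a ≠ 0 := by
  intro h0
  have h1 := ((RingTheory.Sequence.isWeaklyRegular_cons_iff _ _ _).mp h).1
  have h2 : a • (1 : A) = a • (0 : A) := by rw [h0]; simp
  exact one_ne_zero (h1 h2)

theorem weaklyRegular_two {A : Type u} [CommRing A] {a b : A}
    (h : RingTheory.Sequence.IsWeaklyRegular A [a, b]) :
    ∀ z, b * z ∈ Ideal.span {a} → z ∈ Ideal.span {a} := by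
  intro z hz
  have h1 := ((RingTheory.Sequence.isWeaklyRegular_cons_iff _ _ _).mp
    ((RingTheory.Sequence.isWeaklyRegular_cons_iff _ _ _).mp h).2).1
  have hmem : ∀ w : A, w ∈ a • (⊤ : Submodule A A) ↔ w ∈ Ideal.span {a} := by
    intro w
    rw [← Submodule.ideal_span_singleton_smul, smul_eq_mul, Ideal.mul_top]
  have h2 : b • (Submodule.Quotient.mk z : QuotSMulTop a A) = b • (0 : QuotSMulTop a A) := by
    rw [smul_zero, ← Submodule.Quotient.mk_smul, Submodule.Quotient.mk_eq_zero, hmem]
    exact hz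
  have h3 : (Submodule.Quotient.mk z : QuotSMulTop a A) = 0 := h1 h2
  rw [Submodule.Quotient.mk_eq_zero, hmem] at h3
  exact h3

/-- Let `R` be a Noetherian local domain of dimension `d ≤ 2` with a regular sequence of length `d`
(a Cohen-Macaulay local domain), of Hilbert-Samuel multiplicity `μ`. Then every `e ≥ d + μ - 1` is
a test exponent for `R`. -/
theorem result (R : Type u) [CommRing R] [IsDomain R] [IsNoetherianRing R] [IsLocalRing R]
    (d : ℕ) (hd : d ≤ 2) (hdim : ringKrullDim R = d)
    (rs : List R) (hlen : rs.length = d) (hreg : RingTheory.Sequence.IsRegular R rs) (μ : ℕ)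
    (hμ : Tendsto (fun n : ℕ => (d.factorial : ℝ) *
      ((Module.length R (R ⧸ maximalIdeal R ^ n)).toNat : ℝ) / (n : ℝ) ^ d) atTop (𝓝 (μ : ℝ)))
    (e : ℕ) (he : d + μ ≤ e + 1) : IsTestExponent R e := by
  set h : ℕ → ℕ := fun i => Submodule.spanFinrank (maximalIdeal R ^ i) with hh
  have hH : Tendsto (fun n : ℕ => (d.factorial : ℝ) * ((∑ i ∈ Finset.range n, h i : ℕ) : ℝ) /
      (n : ℝ) ^ d) atTop (𝓝 (μ : ℝ)) := by
    refine hμ.congr fun n => ?_
    have h1 : Module.length R (R ⧸ maximalIdeal R ^ n) =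
        ((∑ i ∈ Finset.range n, h i : ℕ) : ℕ∞) := Ln_pow n
    rw [h1, ENat.toNat_natCast]
  have hmem : ∀ r ∈ rs, r ∈ maximalIdeal R := by
    intro r hr
    by_contra hru
    have hu : IsUnit r := by
      by_contra hnu
      exact hru ((mem_maximalIdeal _).mpr hnu)
    apply hreg.top_ne_smul
    have h1 : Ideal.ofList rs = ⊤ :=
      Ideal.eq_top_of_isUnit_mem _ (Ideal.subset_span hr) hu
    rw [h1, Submodule.top_smul]
  have hinf : Infinite (ResidueField (Ext R)) := infinite_residue R
  have hspan : ∀ i, Submodule.spanFinrank (maximalIdeal (Ext R) ^ i) ≤ h i := spanFinrank_ext R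
  have hmem' : ∀ {r : R}, r ∈ maximalIdeal R → algebraMap R (Ext R) r ∈ maximalIdeal (Ext R) := by
    intro r hr
    rw [← map_maximalIdeal_ext]
    exact Ideal.mem_map_of_mem _ hr
  have hweak : RingTheory.Sequence.IsWeaklyRegular (Ext R) (rs.map (algebraMap R (Ext R))) :=
    hreg.toIsWeaklyRegular.of_flat
  obtain rfl | rfl | rfl : d = 0 ∨ d = 1 ∨ d = 2 := by omega
  · -- a field
    have hF : IsField R := by
      have : Ring.KrullDimLE 0 R := by
        rw [Ring.krullDimLE_iff, hdim]
      exact Ring.KrullDimLE.isField_of_isDomain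
    intro M _ _ _ _ hfree
    exfalso
    apply hfree
    let _ := hF.toField
    exact Module.Free.of_divisionRing R M
  · obtain ⟨a, rfl⟩ := List.length_eq_one_iff.mp hlen
    apply descend R (Ext R)
    have ha : a ∈ maximalIdeal R := hmem a (by simp)
    exact inf_one (weaklyRegular_one hweak) (hmem' ha) hspan hH (by omega)
  · obtain ⟨a, b, rfl⟩ := List.length_eq_two.mp hlen
    apply descend R (Ext R)
    have ha : a ∈ maximalIdeal R := hmem a (by simp)
    have hb : b ∈ maximalIdeal R := hmem b (by simp)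
    exact inf_two (weaklyRegular_one hweak) (hmem' ha) (hmem' hb) (weaklyRegular_two hweak) hspan
      hH (by omega)

end Pool.Agent.Results.MP_dca5ce_ag.MultiplicityBound
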